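import Pool.Agent.X29.SF.Defs

/-!
# Characterization of down- and up-integers
-/

namespace Pool.Agent.X29.SF

open goldenRatio

/-- The next term on the side of `k`. -/
noncomputable def mm (n k : ℕ) : ℤ :=
  if k % 2 = 1 then ⌊φ * (n : ℝ)⌋ else ⌊φ * (n : ℝ)⌋ + 1

theorem neg_one_odd {j : ℕ} (h : j % 2 = 1) : ((-1 : ℝ)) ^ j = -1 :=
  Odd.neg_one_pow (Nat.odd_iff.2 h)

theorem neg_one_even {j : ℕ} (h : j % 2 = 0) : ((-1 : ℝ)) ^ j = 1 :=
  Even.neg_one_pow (Nat.even_iff.2 h)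

theorem r_pos : (0 : ℝ) < φ⁻¹ := inv_pos.2 Real.goldenRatio_pos

/-- `A n k` iff the backward term at `k` of the walk on the side of `k` is positive. -/
theorem A_iff (n k : ℕ) : A n k ↔ 0 < Q n (mm n k) k := by
  have h := Q_real n (mm n k) k
  rw [← @Int.cast_pos ℝ, h]
  have hf := Int.self_sub_floor (φ * (n : ℝ))
  unfold A x mm
  rcases Nat.mod_two_eq_zero_or_one k with hk | hk
  · rw [if_neg (by omega), if_neg (by omega), neg_one_even hk]
    push_cast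
    have : φ * (n : ℝ) - (⌊φ * (n : ℝ)⌋ + 1) = -(1 - Int.fract (φ * (n : ℝ))) := by linarith
    rw [this]
    constructor <;> intro h <;> nlinarith
  · rw [if_pos hk, if_pos hk, neg_one_odd hk, hf]
    constructor <;> intro h <;> nlinarith

/-- If `A n k` then the walk on the side of `k` exists with `w_{k+2} = n`. -/
theorem reach_of_A {n k : ℕ} (hn : 1 ≤ n) (h : A n k) :
    ∃ a b : ℕ, 1 ≤ a ∧ 1 ≤ b ∧ walk a b (k + 2) = n ∧ (walk a b (k + 3) : ℤ) = mm n k := by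
  rw [reach_iff]
  refine ⟨(A_iff n k).1 h, ?_⟩
  have h := Q_real n (mm n k) (k + 1)
  rw [← @Int.cast_pos ℝ, h]
  have hf := Int.self_sub_floor (φ * (n : ℝ))
  have h0 := fract_pos hn
  have h1 := Int.fract_lt_one (φ * (n : ℝ))
  have hr : 0 < (n : ℝ) * (φ⁻¹) ^ (k + 1) :=
    mul_pos (by exact_mod_cast hn) (pow_pos r_pos _)
  have hfib : (0 : ℝ) ≤ Nat.fib (k + 1) := Nat.cast_nonneg _
  unfold mm
  rcases Nat.mod_two_eq_zero_or_one k with hk | hk
  · rw [if_neg (by omega), neg_one_odd (by omega)]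
    push_cast
    have : φ * (n : ℝ) - (⌊φ * (n : ℝ)⌋ + 1) = -(1 - Int.fract (φ * (n : ℝ))) := by linarith
    rw [this]
    nlinarith [mul_nonneg (sub_nonneg.2 h1.le) hfib]
  · rw [if_pos hk, neg_one_even (by omega), hf]
    nlinarith [mul_nonneg h0.le hfib]

/-- A term of any walk at `n`: the index on the side of the walk satisfies `A`. -/
theorem A_of_reach {n j : ℕ} (hn : 1 ≤ n) {m : ℤ} (h1 : 0 < Q n m j) :
    (m ≤ ⌊φ * (n : ℝ)⌋ → j % 2 = 1 → A n j) ∧ (⌊φ * (n : ℝ)⌋ + 1 ≤ m → j % 2 = 0 → A n j) := by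
  have h := Q_real n m j
  rw [← @Int.cast_pos ℝ, h] at h1
  have hf := Int.self_sub_floor (φ * (n : ℝ))
  have hfib : (0 : ℝ) ≤ Nat.fib j := Nat.cast_nonneg _
  constructor
  · intro hm hj
    have hm' : (m : ℝ) ≤ ⌊φ * (n : ℝ)⌋ := by exact_mod_cast hm
    rw [neg_one_odd hj] at h1
    unfold A x
    rw [if_pos hj]
    nlinarith [mul_nonneg (sub_nonneg.2 hm') hfib]
  · intro hm hj
    have hm' : ((⌊φ * (n : ℝ)⌋ : ℝ) + 1) ≤ m := by exact_mod_cast hm
    rw [neg_one_even hj] at h1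
    unfold A x
    rw [if_neg (by omega)]
    nlinarith [mul_nonneg (sub_nonneg.2 hm') hfib]

theorem r_lt_one : (φ⁻¹ : ℝ) < 1 := inv_lt_one_of_one_lt₀ Real.one_lt_goldenRatio

/-- `A` is bounded. -/
theorem A_bdd {n : ℕ} (hn : 1 ≤ n) : ∃ B, ∀ k, A n k → k ≤ B := by
  set d := min (x n 0) (x n 1) with hd
  have hd0 : 0 < d := lt_min (x_pos hn 0) (x_pos hn 1)
  obtain ⟨B, hB⟩ := exists_pow_lt_of_lt_one (div_pos hd0 (show (0 : ℝ) < n by exact_mod_cast hn))
    r_lt_one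
  refine ⟨B + 1, fun k hk => ?_⟩
  by_contra hlt
  push Not at hlt
  unfold A at hk
  have h1 : (φ⁻¹ : ℝ) ^ k ≤ φ⁻¹ ^ B :=
    pow_le_pow_of_le_one r_pos.le r_lt_one.le (by omega)
  have h2 : (n : ℝ) * φ⁻¹ ^ k < d := by
    have hn' : (0 : ℝ) < n := by exact_mod_cast hn
    calc (n : ℝ) * φ⁻¹ ^ k ≤ n * φ⁻¹ ^ B := by gcongr
      _ < n * (d / n) := by gcongr
      _ = d := by field_simp
  have h3 : d ≤ x n k := by
    rcases Nat.mod_two_eq_zero_or_one k with h | h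
    · rw [x_congr n (k := k) (l := 0) (by omega)]; exact min_le_left _ _
    · rw [x_congr n (k := k) (l := 1) (by omega)]; exact min_le_right _ _
  have h4 : (1 : ℝ) ≤ Nat.fib k := by
    exact_mod_cast Nat.fib_pos.2 (by omega)
  nlinarith [x_pos hn k]

theorem A_one {n : ℕ} (hn : 2 ≤ n) : A n 1 := by
  unfold A
  have h1 := x_lt_one (n := n) (by omega) 1
  have h2 : (1 : ℝ) ≤ n * φ⁻¹ ^ 1 := by
    rw [pow_one, ← div_eq_mul_inv, le_div_iff₀ Real.goldenRatio_pos]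
    have : (2 : ℝ) ≤ n := by exact_mod_cast hn
    have := Real.goldenRatio_lt_two
    linarith
  simp only [Nat.fib_one, Nat.cast_one, mul_one]
  linarith

/-- The largest index on which `A` holds. -/
theorem exists_max {n : ℕ} (hn : 2 ≤ n) : ∃ K, 1 ≤ K ∧ A n K ∧ ∀ k, A n k → k ≤ K := by
  classical
  obtain ⟨B, hB⟩ := A_bdd (n := n) (by omega)
  refine ⟨Nat.findGreatest (A n) B, ?_, ?_, ?_⟩
  · exact Nat.le_findGreatest (hB 1 (A_one hn)) (A_one hn)
  · exact Nat.findGreatest_spec (hB 1 (A_one hn)) (A_one hn)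
  · intro k hk
    exact Nat.le_findGreatest (hB k hk) hk

theorem slow_index {n K : ℕ} (hn : 2 ≤ n) (hK1 : 1 ≤ K) (hK : A n K)
    (hmax : ∀ k, A n k → k ≤ K) : IsSlowIndex n (K + 2) := by
  constructor
  · obtain ⟨a, b, ha, hb, h, -⟩ := reach_of_A (by omega) hK
    exact ⟨by omega, a, b, ha, hb, h⟩
  · rintro s ⟨hs, a, b, ha, hb, h⟩
    by_contra hlt
    push Not at hlt
    obtain ⟨j, rfl⟩ : ∃ j, s = j + 2 := ⟨s - 2, by omega⟩
    have hr := (reach_iff n (walk a b (j + 3) : ℤ) j).1 ⟨a, b, ha, hb, h, rfl⟩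
    have h1 := A_of_reach (n := n) (by omega) hr.1
    have h2 := A_of_reach (n := n) (by omega) hr.2
    rcases le_or_gt (walk a b (j + 3) : ℤ) ⌊φ * (n : ℝ)⌋ with hm | hm
    · rcases Nat.mod_two_eq_zero_or_one j with hj | hj
      · have := hmax _ (h2.1 hm (by omega)); omega
      · have := hmax _ (h1.1 hm hj); omega
    · rcases Nat.mod_two_eq_zero_or_one j with hj | hj
      · have := hmax _ (h1.2 (by omega) hj); omega
      · have := hmax _ (h2.2 (by omega) (by omega)); omega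

theorem slow_unique {n s t : ℕ} (h1 : IsSlowIndex n s) (h2 : IsSlowIndex n t) : s = t :=
  h1.unique h2

theorem ceil_eq {n : ℕ} (hn : 1 ≤ n) : ⌈φ * (n : ℝ)⌉ = ⌊φ * (n : ℝ)⌋ + 1 := by
  have h0 := fract_pos hn
  have hf := Int.self_sub_floor (φ * (n : ℝ))
  have hl := Int.lt_floor_add_one (φ * (n : ℝ))
  rw [Int.ceil_eq_iff]
  push_cast
  constructor <;> linarith

theorem down_iff_odd {n K : ℕ} (hn : 2 ≤ n) (hK1 : 1 ≤ K) (hK : A n K)
    (hmax : ∀ k, A n k → k ≤ K) : Down n ↔ K % 2 = 1 := by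
  constructor
  · rintro ⟨-, s, a, b, hs, ha, hb, h1, h2⟩
    have hsK := slow_unique hs (slow_index hn hK1 hK hmax)
    subst hsK
    by_contra hodd
    have hr := (reach_iff n _ K).1 ⟨a, b, ha, hb, h1, h2⟩
    have := hmax _ ((A_of_reach (n := n) (by omega) hr.2).1 le_rfl (by omega))
    omega
  · intro hodd
    obtain ⟨a, b, ha, hb, h1, h2⟩ := reach_of_A (by omega) hK
    refine ⟨hn, K + 2, a, b, slow_index hn hK1 hK hmax, ha, hb, h1, ?_⟩
    unfold mm at h2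
    rw [if_pos hodd] at h2
    exact h2

theorem up_iff_even {n K : ℕ} (hn : 2 ≤ n) (hK1 : 1 ≤ K) (hK : A n K)
    (hmax : ∀ k, A n k → k ≤ K) : Up n ↔ K % 2 = 0 := by
  constructor
  · rintro ⟨-, s, a, b, hs, ha, hb, h1, h2⟩
    have hsK := slow_unique hs (slow_index hn hK1 hK hmax)
    subst hsK
    by_contra hodd
    have hr := (reach_iff n _ K).1 ⟨a, b, ha, hb, h1, h2⟩
    have := hmax _ ((A_of_reach (n := n) (by omega) hr.2).2
      (by rw [ceil_eq (by omega)]) (by omega))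
    omega
  · intro hodd
    obtain ⟨a, b, ha, hb, h1, h2⟩ := reach_of_A (by omega) hK
    refine ⟨hn, K + 2, a, b, slow_index hn hK1 hK hmax, ha, hb, h1, ?_⟩
    unfold mm at h2
    rw [if_neg (by omega)] at h2
    rw [ceil_eq (by omega)]
    exact h2

theorem up_iff_not_down {n : ℕ} (hn : 2 ≤ n) : Up n ↔ ¬ Down n := by
  obtain ⟨K, hK1, hK, hmax⟩ := exists_max hn
  rw [down_iff_odd hn hK1 hK hmax, up_iff_even hn hK1 hK hmax]
  omega

/-- `A` goes down by steps of two. -/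
theorem A_sub_two {n k : ℕ} (hn : 1 ≤ n) (h : A n (k + 2)) : A n k := by
  unfold A at h ⊢
  rw [x_congr n (k := k + 2) (l := k) (by omega)] at h
  have h1 : (Nat.fib k : ℝ) ≤ Nat.fib (k + 2) := by
    exact_mod_cast Nat.fib_mono (by omega)
  have h2 : (φ⁻¹ : ℝ) ^ (k + 2) ≤ φ⁻¹ ^ k :=
    pow_le_pow_of_le_one r_pos.le r_lt_one.le (by omega)
  have hx := x_pos hn k
  calc x n k * Nat.fib k ≤ x n k * Nat.fib (k + 2) := by gcongr
    _ < n * φ⁻¹ ^ (k + 2) := h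
    _ ≤ n * φ⁻¹ ^ k := by gcongr

theorem A_sub {n k l : ℕ} (hn : 1 ≤ n) (h : A n (k + 2 * l)) : A n k := by
  induction l with
  | zero => exact h
  | succ l ih => exact ih (A_sub_two hn h)

/-- `good p n`: some `k` of parity `p` with `A n k` and not `A n (k + 1)`. -/
def Good (p n : ℕ) : Prop := ∃ k, 1 ≤ k ∧ k % 2 = p % 2 ∧ A n k ∧ ¬ A n (k + 1)

theorem good_iff {n K : ℕ} (hn : 2 ≤ n) (hK1 : 1 ≤ K) (hK : A n K)
    (hmax : ∀ k, A n k → k ≤ K) (p : ℕ) : Good p n ↔ K % 2 = p % 2 := by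
  constructor
  · rintro ⟨k, hk1, hkp, h1, h2⟩
    by_contra hne
    have hle := hmax k h1
    have hk : (k + 1) % 2 = K % 2 := by omega
    obtain ⟨l, hl⟩ : ∃ l, K = (k + 1) + 2 * l := ⟨(K - (k + 1)) / 2, by omega⟩
    rw [hl] at hK
    exact h2 (A_sub (by omega) hK)
  · intro h
    exact ⟨K, hK1, h, hK, fun h' => by have := hmax _ h'; omega⟩

theorem down_iff {n : ℕ} (hn : 2 ≤ n) : Down n ↔ Good 1 n := by
  obtain ⟨K, hK1, hK, hmax⟩ := exists_max hn
  rw [down_iff_odd hn hK1 hK hmax, good_iff hn hK1 hK hmax]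

theorem up_iff {n : ℕ} (hn : 2 ≤ n) : Up n ↔ Good 0 n := by
  obtain ⟨K, hK1, hK, hmax⟩ := exists_max hn
  rw [up_iff_even hn hK1 hK hmax, good_iff hn hK1 hK hmax]

end Pool.Agent.X29.SF
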