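import Pool.Agent.X29.SF.Char

/-!
# Windows of length 13
-/

namespace Pool.Agent.X29.SF

open goldenRatio

theorem phi_lb : (1.6180339 : ℝ) < φ := by
  have h5 : (2.2360678 : ℝ) < √5 := by
    apply Real.lt_sqrt_of_sq_lt; norm_num
  unfold Real.goldenRatio
  linarith

theorem phi_ub : φ < (1.618034 : ℝ) := by
  have h5 : √5 < (2.236068 : ℝ) := by
    rw [Real.sqrt_lt' (by norm_num)]; norm_num
  unfold Real.goldenRatio
  linarith

theorem fib_succ_le {k : ℕ} (hk : 1 ≤ k) : Nat.fib (k + 1) ≤ 2 * Nat.fib k := by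
  obtain ⟨j, rfl⟩ : ∃ j, k = j + 1 := ⟨k - 1, by omega⟩
  rw [Nat.fib_add_two]
  have := Nat.fib_mono (show j ≤ j + 1 by omega)
  omega

theorem fib_ratio {j : ℕ} : 3 * Nat.fib (j + 4) ≤ 5 * Nat.fib (j + 3) := by
  induction j using Nat.strong_induction_on with
  | _ j ih =>
    match j with
    | 0 => decide
    | 1 => decide
    | (j + 2) =>
      have h1 := ih j (by omega)
      have h2 := ih (j + 1) (by omega)
      have e1 : Nat.fib (j + 2 + 4) = Nat.fib (j + 1 + 3) + Nat.fib (j + 1 + 4) := by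
        rw [show j + 2 + 4 = (j + 4) + 2 by ring, Nat.fib_add_two]
      have e2 : Nat.fib (j + 2 + 3) = Nat.fib (j + 3) + Nat.fib (j + 1 + 3) := by
        rw [show j + 2 + 3 = (j + 3) + 2 by ring, Nat.fib_add_two]
      rw [e1, e2]
      have e3 : Nat.fib (j + 1 + 3) = Nat.fib (j + 4) := rfl
      omega

theorem r_succ (k : ℕ) : (φ⁻¹ : ℝ) ^ k = φ * φ⁻¹ ^ (k + 1) := by
  rw [pow_succ]
  have := Real.goldenRatio_ne_zero
  field_simp

/-- Stability: with a margin `1/20` membership passes to numbers at distance at most `13`. -/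
theorem good_stable {p n n' : ℕ} (hn : 850 ≤ n) (h1 : n ≤ n' + 13) (h2 : n' ≤ n + 13)
    (hg : Good p n) (hx : x n' p ≤ x n p - 1 / 20) : Good p n' := by
  obtain ⟨k, hk1, hkp, hA, hnA⟩ := hg
  have hn0 : (850 : ℝ) ≤ n := by exact_mod_cast hn
  have h1' : (n : ℝ) ≤ n' + 13 := by exact_mod_cast h1
  have h2' : (n' : ℝ) ≤ n + 13 := by exact_mod_cast h2
  have hxk : x n' k ≤ x n k - 1 / 20 := by
    rw [x_congr n' hkp, x_congr n hkp]; exact hx
  have hf : (Nat.fib (k + 1) : ℝ) ≤ 2 * Nat.fib k := by exact_mod_cast fib_succ_le hk1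
  have hf1 : (0 : ℝ) < Nat.fib (k + 1) := by exact_mod_cast Nat.fib_pos.2 (by omega)
  have hf0 : (0 : ℝ) < Nat.fib k := by exact_mod_cast Nat.fib_pos.2 (by omega)
  unfold A at hA hnA
  push Not at hnA
  have hx1 := x_lt_one (n := n) (by omega) (k + 1)
  set R := (φ⁻¹ : ℝ) ^ (k + 1) with hR
  have hR0 : 0 < R := pow_pos r_pos _
  have hRk : (φ⁻¹ : ℝ) ^ k = φ * R := r_succ k
  have hφ := phi_ub
  have hφ0 := phi_lb
  have hn1 : (n : ℝ) * R ≤ Nat.fib (k + 1) := by
    nlinarith [mul_le_mul_of_nonneg_right hx1.le hf1.le]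
  have h850 : 850 * R ≤ Nat.fib (k + 1) := by nlinarith
  have h260 : 260 * (φ * R) ≤ Nat.fib k := by nlinarith
  refine ⟨k, hk1, hkp, ?_, ?_⟩
  · unfold A
    rw [hRk] at hA ⊢
    have e1 : x n' k * Nat.fib k ≤ (x n k - 1 / 20) * Nat.fib k := by gcongr
    have e2 : (n : ℝ) * (φ * R) ≤ (n' + 13) * (φ * R) := by
      have : 0 ≤ φ * R := by positivity
      gcongr
    nlinarith
  · unfold A
    push Not
    rw [x_succ] at hnA ⊢
    have e1 : (1 - x n k + 1 / 20) * Nat.fib (k + 1) ≤ (1 - x n' k) * Nat.fib (k + 1) := by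
      have : 1 - x n k + 1 / 20 ≤ 1 - x n' k := by linarith
      gcongr
    have e2 : (n' : ℝ) * R ≤ (n + 13) * R := by gcongr
    nlinarith

/-- If the fractional distance is at most `1/4`, the number is good. -/
theorem good_of_small {p n : ℕ} (hn : 100 ≤ n) (hx : x n p ≤ 1 / 4) : Good p n := by
  classical
  have hn0 : (100 : ℝ) ≤ n := by exact_mod_cast hn
  have hφ := phi_ub
  have hφ0 := phi_lb
  -- q = 2 or 3 of the parity of p
  set q := 2 + p % 2 with hq
  have hex : ∃ j, (n : ℝ) * φ⁻¹ ^ (q + 2 * j) ≤ Nat.fib (q + 2 * j) / 4 := by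
    obtain ⟨B, hB⟩ := exists_pow_lt_of_lt_one (show (0 : ℝ) < 1 / (4 * n) by positivity) r_lt_one
    refine ⟨B, ?_⟩
    have h1 : (φ⁻¹ : ℝ) ^ (q + 2 * B) ≤ φ⁻¹ ^ B :=
      pow_le_pow_of_le_one r_pos.le r_lt_one.le (by omega)
    have h2 : (1 : ℝ) ≤ Nat.fib (q + 2 * B) := by exact_mod_cast Nat.fib_pos.2 (by omega)
    have h3 : (n : ℝ) * φ⁻¹ ^ (q + 2 * B) ≤ 1 / 4 := by
      calc (n : ℝ) * φ⁻¹ ^ (q + 2 * B) ≤ n * φ⁻¹ ^ B := by gcongr
        _ ≤ n * (1 / (4 * n)) := by gcongr
        _ = 1 / 4 := by field_simp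
    linarith
  set J := Nat.find hex with hJ
  have hJ1 := Nat.find_spec hex
  rw [← hJ] at hJ1
  have hr : (0.6 : ℝ) < φ⁻¹ := by
    rw [lt_inv_comm₀ (by norm_num) Real.goldenRatio_pos]
    norm_num
    linarith
  have hJpos : J ≠ 0 := by
    intro h0
    rw [h0] at hJ1
    have hcases : q = 2 ∨ q = 3 := by omega
    rcases hcases with h | h
    · rw [h] at hJ1
      have hf2 : (Nat.fib (2 + 2 * 0) : ℝ) = 1 := by norm_num
      rw [hf2, show 2 + 2 * 0 = 2 from rfl] at hJ1
      have h36 : (0.36 : ℝ) ≤ φ⁻¹ ^ 2 := by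
        have := pow_le_pow_left₀ (by norm_num) hr.le 2
        norm_num at this ⊢
        linarith
      have h36' : (100 : ℝ) * 0.36 ≤ n * φ⁻¹ ^ 2 := by gcongr
      linarith
    · rw [h] at hJ1
      have hf2 : (Nat.fib (3 + 2 * 0) : ℝ) = 2 := by norm_num [Nat.fib_add_two]
      rw [hf2, show 3 + 2 * 0 = 3 from rfl] at hJ1
      have h36 : (0.216 : ℝ) ≤ φ⁻¹ ^ 3 := by
        have := pow_le_pow_left₀ (by norm_num) hr.le 3
        norm_num at this ⊢
        linarith
      have h36' : (100 : ℝ) * 0.216 ≤ n * φ⁻¹ ^ 3 := by gcongr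
      linarith
  obtain ⟨I, hI⟩ : ∃ I, J = I + 1 := ⟨J - 1, by omega⟩
  have hI1 := Nat.find_min hex (m := I) (by omega)
  push Not at hI1
  rw [hI] at hJ1
  set i := q + 2 * I with hi
  have hi2 : q + 2 * (I + 1) = i + 2 := by omega
  rw [hi2] at hJ1
  have hip : i % 2 = p % 2 := by omega
  have hxi : x n i ≤ 1 / 4 := by rw [x_congr n hip]; exact hx
  have hfi : (0 : ℝ) < Nat.fib i := by exact_mod_cast Nat.fib_pos.2 (by omega)
  have hfi1 : (0 : ℝ) < Nat.fib (i + 1) := by exact_mod_cast Nat.fib_pos.2 (by omega)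
  refine ⟨i, by omega, hip, ?_, ?_⟩
  · unfold A
    have : x n i * Nat.fib i ≤ (1 / 4) * Nat.fib i := by gcongr
    linarith
  · unfold A
    push Not
    rw [x_succ, r_succ (i + 1)]
    have e1 : (3 : ℝ) * Nat.fib (i + 2) ≤ 5 * Nat.fib (i + 1) := by
      obtain ⟨j, hj⟩ : ∃ j, i = j + 2 := ⟨i - 2, by omega⟩
      rw [hj]
      exact_mod_cast (fib_ratio (j := j))
    have e2 : (3 / 4 : ℝ) * Nat.fib (i + 1) ≤ (1 - x n i) * Nat.fib (i + 1) := by
      have : (3 / 4 : ℝ) ≤ 1 - x n i := by linarith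
      gcongr
    rw [show i + 1 + 1 = i + 2 from rfl]
    have e3 : (n : ℝ) * (φ * φ⁻¹ ^ (i + 2)) = φ * (n * φ⁻¹ ^ (i + 2)) := by ring
    rw [e3]
    have e4 : φ * (n * φ⁻¹ ^ (i + 2)) ≤ 1.618034 * (Nat.fib (i + 2) / 4) := by
      have : (0 : ℝ) ≤ n * φ⁻¹ ^ (i + 2) := by
        have := pow_pos r_pos (i + 2); positivity
      nlinarith
    linarith

/-- The combinatorial core: a window of length 13. -/
theorem core (P : ℕ → Prop) (y : ℕ → ℝ) (hy0 : ∀ j ≤ 13, 0 < y j) (hy1 : ∀ j ≤ 13, y j < 1)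
    (hz : ∀ j : ℕ, j ≤ 13 → ∃ z : ℤ, y j = y 0 + (j : ℝ) * φ - z)
    (h1 : ∀ i ≤ 13, ∀ j ≤ 13, P i → y j ≤ y i - 1 / 20 → P j)
    (h2 : ∀ j ≤ 13, y j ≤ 1 / 4 → P j) (hP : P 0) :
    (∃ a b c, 1 ≤ a ∧ a < b ∧ b < c ∧ c ≤ 13 ∧ P a ∧ P b ∧ P c) ∧
    (P 9 → ∃ a b c, 1 ≤ a ∧ a < b ∧ b < c ∧ c ≤ 8 ∧ P a ∧ P b ∧ P c) ∧
    (P 12 → ∃ a b c, 1 ≤ a ∧ a < b ∧ b < c ∧ c ≤ 11 ∧ P a ∧ P b ∧ P c) := by
  have hl := phi_lb
  have hu := phi_ub
  have y0 := hy0 0 (by norm_num)
  have y1 := hy1 0 (by norm_num)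
  have key' : ∀ j : ℕ, j ≤ 13 → ∀ c : ℤ, 0 < y 0 + (j : ℝ) * φ - c → y 0 + (j : ℝ) * φ - c < 1 →
      y j = y 0 + (j : ℝ) * φ - c := by
    intro j hj c hc0 hc1
    obtain ⟨z, hz⟩ := hz j hj
    have a0 := hy0 j hj
    have a1 := hy1 j hj
    rw [hz] at a0 a1
    have b1 : (z : ℝ) < c + 1 := by linarith
    have b2 : (c : ℝ) < z + 1 := by linarith
    have b1' : z < c + 1 := by exact_mod_cast b1
    have b2' : c < z + 1 := by exact_mod_cast b2
    have : z = c := by omega
    rw [hz, this]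
  refine ⟨?_, ?_, ?_⟩
  · rcases le_or_gt 0.2017 (y 0) with ha | ha
    · have e3 := key' 3 (by norm_num) 5 (by push_cast; linarith) (by push_cast; linarith)
      have e8 := key' 8 (by norm_num) 13 (by push_cast; linarith) (by push_cast; linarith)
      have e11 := key' 11 (by norm_num) 18 (by push_cast; linarith) (by push_cast; linarith)
      push_cast at e3 e8 e11
      exact ⟨3, 8, 11, by norm_num, by norm_num, by norm_num, by norm_num,
        h1 0 (by norm_num) 3 (by norm_num) hP (by rw [e3]; linarith),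
        h1 0 (by norm_num) 8 (by norm_num) hP (by rw [e8]; linarith),
        h1 0 (by norm_num) 11 (by norm_num) hP (by rw [e11]; linarith)⟩
    rcases le_or_gt 0.1461 (y 0) with hb | hb
    · have e3 := key' 3 (by norm_num) 5 (by push_cast; linarith) (by push_cast; linarith)
      have e8 := key' 8 (by norm_num) 13 (by push_cast; linarith) (by push_cast; linarith)
      have e13 := key' 13 (by norm_num) 21 (by push_cast; linarith) (by push_cast; linarith)
      push_cast at e3 e8 e13
      exact ⟨3, 8, 13, by norm_num, by norm_num, by norm_num, by norm_num,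
        h1 0 (by norm_num) 3 (by norm_num) hP (by rw [e3]; linarith),
        h1 0 (by norm_num) 8 (by norm_num) hP (by rw [e8]; linarith),
        h2 13 (by norm_num) (by rw [e13]; linarith)⟩
    rcases le_or_gt 0.0558 (y 0) with hc | hc
    · have e5 := key' 5 (by norm_num) 8 (by push_cast; linarith) (by push_cast; linarith)
      have e8 := key' 8 (by norm_num) 13 (by push_cast; linarith) (by push_cast; linarith)
      have e13 := key' 13 (by norm_num) 21 (by push_cast; linarith) (by push_cast; linarith)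
      push_cast at e5 e8 e13
      exact ⟨5, 8, 13, by norm_num, by norm_num, by norm_num, by norm_num,
        h2 5 (by norm_num) (by rw [e5]; linarith),
        h1 0 (by norm_num) 8 (by norm_num) hP (by rw [e8]; linarith),
        h2 13 (by norm_num) (by rw [e13]; linarith)⟩
    · have e5 := key' 5 (by norm_num) 8 (by push_cast; linarith) (by push_cast; linarith)
      have e10 := key' 10 (by norm_num) 16 (by push_cast; linarith) (by push_cast; linarith)
      have e13 := key' 13 (by norm_num) 21 (by push_cast; linarith) (by push_cast; linarith)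
      push_cast at e5 e10 e13
      exact ⟨5, 10, 13, by norm_num, by norm_num, by norm_num, by norm_num,
        h2 5 (by norm_num) (by rw [e5]; linarith),
        h2 10 (by norm_num) (by rw [e10]; linarith),
        h2 13 (by norm_num) (by rw [e13]; linarith)⟩
  · intro h9
    rcases le_or_gt (y 9) (y 0) with ha | ha
    · -- y 9 = y 0 + 9 φ - 15
      obtain ⟨z, hz9⟩ := hz 9 (by norm_num)
      have a0 := hy0 9 (by norm_num)
      rw [hz9] at a0 ha
      push_cast at a0 ha
      have b1 : (14 : ℝ) < z := by linarith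
      have b1' : 14 < z := by exact_mod_cast b1
      have b2 : (15 : ℝ) ≤ z := by exact_mod_cast b1'
      have hy : (0.4 : ℝ) < y 0 := by linarith
      have e1 := key' 1 (by norm_num) 2 (by push_cast; linarith) (by push_cast; linarith)
      have e3 := key' 3 (by norm_num) 5 (by push_cast; linarith) (by push_cast; linarith)
      have e6 := key' 6 (by norm_num) 10 (by push_cast; linarith) (by push_cast; linarith)
      push_cast at e1 e3 e6
      exact ⟨1, 3, 6, by norm_num, by norm_num, by norm_num, by norm_num,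
        h1 0 (by norm_num) 1 (by norm_num) hP (by rw [e1]; linarith),
        h1 0 (by norm_num) 3 (by norm_num) hP (by rw [e3]; linarith),
        h1 0 (by norm_num) 6 (by norm_num) hP (by rw [e6]; linarith)⟩
    · obtain ⟨z, hz9⟩ := hz 9 (by norm_num)
      have a1 := hy1 9 (by norm_num)
      rw [hz9] at a1 ha
      push_cast at a1 ha
      have b1 : (z : ℝ) < 15 := by linarith
      have b1' : z < 15 := by exact_mod_cast b1
      have b2 : (z : ℝ) ≤ 14 := by exact_mod_cast (show z ≤ 14 by omega)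
      have hy : y 0 < (0.44 : ℝ) := by linarith
      have e9 := key' 9 (by norm_num) 14 (by push_cast; linarith) (by push_cast; linarith)
      have e2 := key' 2 (by norm_num) 3 (by push_cast; linarith) (by push_cast; linarith)
      have e5 := key' 5 (by norm_num) 8 (by push_cast; linarith) (by push_cast; linarith)
      have e7 := key' 7 (by norm_num) 11 (by push_cast; linarith) (by push_cast; linarith)
      push_cast at e9 e2 e5 e7
      exact ⟨2, 5, 7, by norm_num, by norm_num, by norm_num, by norm_num,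
        h1 9 (by norm_num) 2 (by norm_num) h9 (by rw [e9, e2]; linarith),
        h1 9 (by norm_num) 5 (by norm_num) h9 (by rw [e9, e5]; linarith),
        h1 9 (by norm_num) 7 (by norm_num) h9 (by rw [e9, e7]; linarith)⟩
  · intro h12
    rcases le_or_gt (y 12) (y 0) with ha | ha
    · obtain ⟨z, hz9⟩ := hz 12 (by norm_num)
      have a0 := hy0 12 (by norm_num)
      rw [hz9] at a0 ha
      push_cast at a0 ha
      have b1 : (19 : ℝ) < z := by linarith
      have b1' : 19 < z := by exact_mod_cast b1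
      have b2 : (20 : ℝ) ≤ z := by exact_mod_cast b1'
      have hy : (0.5 : ℝ) < y 0 := by linarith
      have e1 := key' 1 (by norm_num) 2 (by push_cast; linarith) (by push_cast; linarith)
      have e3 := key' 3 (by norm_num) 5 (by push_cast; linarith) (by push_cast; linarith)
      have e6 := key' 6 (by norm_num) 10 (by push_cast; linarith) (by push_cast; linarith)
      push_cast at e1 e3 e6
      exact ⟨1, 3, 6, by norm_num, by norm_num, by norm_num, by norm_num,
        h1 0 (by norm_num) 1 (by norm_num) hP (by rw [e1]; linarith),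
        h1 0 (by norm_num) 3 (by norm_num) hP (by rw [e3]; linarith),
        h1 0 (by norm_num) 6 (by norm_num) hP (by rw [e6]; linarith)⟩
    · obtain ⟨z, hz9⟩ := hz 12 (by norm_num)
      have a1 := hy1 12 (by norm_num)
      rw [hz9] at a1 ha
      push_cast at a1 ha
      have b1 : (z : ℝ) < 20 := by linarith
      have b1' : z < 20 := by exact_mod_cast b1
      have b2 : (z : ℝ) ≤ 19 := by exact_mod_cast (show z ≤ 19 by omega)
      have hy : y 0 < (0.6 : ℝ) := by linarith
      have e9 := key' 12 (by norm_num) 19 (by push_cast; linarith) (by push_cast; linarith)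
      have e2 := key' 2 (by norm_num) 3 (by push_cast; linarith) (by push_cast; linarith)
      have e5 := key' 5 (by norm_num) 8 (by push_cast; linarith) (by push_cast; linarith)
      have e7 := key' 7 (by norm_num) 11 (by push_cast; linarith) (by push_cast; linarith)
      push_cast at e9 e2 e5 e7
      exact ⟨2, 5, 7, by norm_num, by norm_num, by norm_num, by norm_num,
        h1 12 (by norm_num) 2 (by norm_num) h12 (by rw [e9, e2]; linarith),
        h1 12 (by norm_num) 5 (by norm_num) h12 (by rw [e9, e5]; linarith),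
        h1 12 (by norm_num) 7 (by norm_num) h12 (by rw [e9, e7]; linarith)⟩

end Pool.Agent.X29.SF
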