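import Mathlib

/-!
# Slow Fibonacci walks: definitions and the basic characterization
-/

namespace Pool.Agent.X29.SF

open goldenRatio

/-- The Fibonacci walk with `w_1 = a`, `w_2 = b` (the value at `0` is never used). -/
def walk (a b : ℕ) : ℕ → ℕ
  | 0 => 0
  | 1 => a
  | 2 => b
  | (k + 3) => walk a b (k + 2) + walk a b (k + 1)

/-- `s = s(n)`: the greatest index at which a walk with positive starting values attains `n`. -/
def IsSlowIndex (n s : ℕ) : Prop :=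
  IsGreatest {s : ℕ | 1 ≤ s ∧ ∃ a b : ℕ, 1 ≤ a ∧ 1 ≤ b ∧ walk a b s = n} s

/-- `n` is a down-integer: some `n`-slow walk has `w_{s(n)+1} = ⌊φ n⌋`. -/
def Down (n : ℕ) : Prop :=
  2 ≤ n ∧ ∃ s a b : ℕ, IsSlowIndex n s ∧ 1 ≤ a ∧ 1 ≤ b ∧ walk a b s = n ∧
    (walk a b (s + 1) : ℤ) = ⌊Real.goldenRatio * (n : ℝ)⌋

/-- `n` is an up-integer: some `n`-slow walk has `w_{s(n)+1} = ⌈φ n⌉`. -/
def Up (n : ℕ) : Prop :=
  2 ≤ n ∧ ∃ s a b : ℕ, IsSlowIndex n s ∧ 1 ≤ a ∧ 1 ≤ b ∧ walk a b s = n ∧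
    (walk a b (s + 1) : ℤ) = ⌈Real.goldenRatio * (n : ℝ)⌉

/-- The set of `l`-th order gaps of the increasing enumeration of `P`. -/
noncomputable def gaps (P : ℕ → Prop) (l : ℕ) : Set ℕ :=
  {g | ∃ k, g = Nat.nth P (k + l) - Nat.nth P k}

theorem walk_add_two (a b k : ℕ) :
    walk a b (k + 2) = Nat.fib k * a + Nat.fib (k + 1) * b ∧
    walk a b (k + 3) = Nat.fib (k + 1) * a + Nat.fib (k + 2) * b := by
  induction k with
  | zero => simp [walk]; ring
  | succ k ih =>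
    refine ⟨ih.2, ?_⟩
    have h3 : walk a b (k + 1 + 3) = walk a b (k + 3) + walk a b (k + 2) := rfl
    rw [h3, ih.1, ih.2, show k + 1 + 2 = k + 1 + 2 from rfl, Nat.fib_add_two (n := k + 1),
      Nat.fib_add_two (n := k)]
    ring

theorem cassini (k : ℕ) :
    (Nat.fib (k + 1) : ℤ) ^ 2 - Nat.fib k * Nat.fib (k + 2) = (-1) ^ k := by
  induction k with
  | zero => simp
  | succ k ih =>
    have h1 : (Nat.fib (k + 2) : ℤ) = Nat.fib k + Nat.fib (k + 1) := by
      rw [Nat.fib_add_two]; push_cast; ring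
    have h2 : (Nat.fib (k + 3) : ℤ) = Nat.fib (k + 1) + Nat.fib (k + 2) := by
      rw [Nat.fib_add_two (n := k + 1)]; push_cast; ring
    rw [show k + 1 + 1 = k + 2 from rfl, show k + 1 + 2 = k + 3 from rfl, h2, pow_succ (-1 : ℤ) k, ← ih, h1]
    ring

/-- The backward walk. -/
def Q (n m : ℤ) (k : ℕ) : ℤ := (-1) ^ k * (n * Nat.fib (k + 1) - m * Nat.fib k)

theorem reach_iff (n : ℕ) (m : ℤ) (k : ℕ) :
    (∃ a b : ℕ, 1 ≤ a ∧ 1 ≤ b ∧ walk a b (k + 2) = n ∧ (walk a b (k + 3) : ℤ) = m) ↔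
      0 < Q n m k ∧ 0 < Q n m (k + 1) := by
  have hc := cassini k
  have hs : ((-1 : ℤ) ^ k) * (-1) ^ k = 1 := by rw [← mul_pow]; simp
  constructor
  · rintro ⟨a, b, ha, hb, hn, hm⟩
    obtain ⟨h1, h2⟩ := walk_add_two a b k
    rw [h1] at hn
    rw [h2] at hm
    have hn' : (n : ℤ) = Nat.fib k * a + Nat.fib (k + 1) * b := by rw [← hn]; push_cast; ring
    have hm' : m = Nat.fib (k + 1) * a + Nat.fib (k + 2) * b := by rw [← hm]; push_cast; ring
    have e1 : Q n m k = b := by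
      unfold Q
      rw [hn', hm']
      have : ((-1 : ℤ) ^ k) * ((Nat.fib k * a + Nat.fib (k + 1) * b) * Nat.fib (k + 1)
          - (Nat.fib (k + 1) * a + Nat.fib (k + 2) * b) * Nat.fib k)
          = b * ((-1) ^ k * ((Nat.fib (k + 1) : ℤ) ^ 2 - Nat.fib k * Nat.fib (k + 2))) := by ring
      rw [this, hc, hs, mul_one]
    have e2 : Q n m (k + 1) = a := by
      unfold Q
      rw [hn', hm']
      have : ((-1 : ℤ) ^ (k + 1)) * ((Nat.fib k * a + Nat.fib (k + 1) * b) * Nat.fib (k + 1 + 1)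
          - (Nat.fib (k + 1) * a + Nat.fib (k + 2) * b) * Nat.fib (k + 1))
          = a * ((-1) ^ k * ((Nat.fib (k + 1) : ℤ) ^ 2 - Nat.fib k * Nat.fib (k + 2))) := by
        rw [show k + 1 + 1 = k + 2 from rfl]; ring
      rw [this, hc, hs, mul_one]
    rw [e1, e2]
    constructor <;> exact_mod_cast (by omega)
  · rintro ⟨h1, h2⟩
    obtain ⟨b, hb⟩ := Int.eq_ofNat_of_zero_le h1.le
    obtain ⟨a, ha⟩ := Int.eq_ofNat_of_zero_le h2.le
    refine ⟨a, b, by omega, by omega, ?_, ?_⟩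
    · have : (walk a b (k + 2) : ℤ) = n := by
        rw [(walk_add_two a b k).1]
        push_cast
        rw [← ha, ← hb]
        unfold Q
        have : (Nat.fib k : ℤ) * ((-1) ^ (k + 1) * (n * Nat.fib (k + 1 + 1) - m * Nat.fib (k + 1)))
            + Nat.fib (k + 1) * ((-1) ^ k * (n * Nat.fib (k + 1) - m * Nat.fib k))
            = n * ((-1) ^ k * ((Nat.fib (k + 1) : ℤ) ^ 2 - Nat.fib k * Nat.fib (k + 2))) := by
          rw [show k + 1 + 1 = k + 2 from rfl]; ring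
        rw [this, hc, hs, mul_one]
      exact_mod_cast this
    · rw [(walk_add_two a b k).2]
      push_cast
      rw [← ha, ← hb]
      unfold Q
      have : (Nat.fib (k + 1) : ℤ) * ((-1) ^ (k + 1) *
            (n * Nat.fib (k + 1 + 1) - m * Nat.fib (k + 1)))
          + Nat.fib (k + 2) * ((-1) ^ k * (n * Nat.fib (k + 1) - m * Nat.fib k))
          = m * ((-1) ^ k * ((Nat.fib (k + 1) : ℤ) ^ 2 - Nat.fib k * Nat.fib (k + 2))) := by
        rw [show k + 1 + 1 = k + 2 from rfl]; ring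
      rw [this, hc, hs, mul_one]

theorem Q_real (n : ℕ) (m : ℤ) (k : ℕ) :
    (Q n m k : ℝ) = n * (φ⁻¹) ^ k + (-1) ^ k * (φ * n - m) * Nat.fib k := by
  unfold Q
  push_cast
  have h1 : (Nat.fib (k + 1) : ℝ) = φ * Nat.fib k + ψ ^ k := by
    have := Real.fib_succ_sub_goldenRatio_mul_fib k
    linarith
  have h2 : (φ⁻¹ : ℝ) ^ k = (-1) ^ k * ψ ^ k := by
    rw [Real.inv_goldenRatio, neg_eq_neg_one_mul, mul_pow]
  rw [h1, h2]
  ring

/-- Fractional distance on the side of parity `k`. -/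
noncomputable def x (n k : ℕ) : ℝ :=
  if k % 2 = 1 then Int.fract (φ * (n : ℝ)) else 1 - Int.fract (φ * (n : ℝ))

/-- The walk on the side of `k` goes back `k` steps. -/
def A (n k : ℕ) : Prop := x n k * Nat.fib k < n * (φ⁻¹) ^ k

theorem fract_pos {n : ℕ} (hn : 1 ≤ n) : 0 < Int.fract (φ * (n : ℝ)) := by
  have hirr : Irrational (φ * (n : ℝ)) :=
    Real.goldenRatio_irrational.mul_natCast (by omega)
  rcases (Int.fract_nonneg (φ * (n : ℝ))).lt_or_eq with h | h
  · exact h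
  · exfalso
    have := Int.self_sub_floor (φ * (n : ℝ))
    rw [← h] at this
    exact hirr ⟨(⌊φ * (n : ℝ)⌋ : ℚ), by push_cast; linarith⟩

theorem x_pos {n : ℕ} (hn : 1 ≤ n) (k : ℕ) : 0 < x n k := by
  unfold x
  split_ifs
  · exact fract_pos hn
  · have := Int.fract_lt_one (φ * (n : ℝ)); linarith

theorem x_lt_one {n : ℕ} (hn : 1 ≤ n) (k : ℕ) : x n k < 1 := by
  unfold x
  split_ifs
  · exact Int.fract_lt_one _
  · have := fract_pos hn; linarith

theorem x_succ (n k : ℕ) : x n (k + 1) = 1 - x n k := by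
  unfold x
  rcases Nat.mod_two_eq_zero_or_one k with h | h
  · rw [if_pos (by omega), if_neg (by omega)]; ring
  · rw [if_neg (by omega), if_pos (by omega)]

theorem x_congr (n : ℕ) {k l : ℕ} (h : k % 2 = l % 2) : x n k = x n l := by
  unfold x; rw [h]

end Pool.Agent.X29.SF
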