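import Pool.Agent.X29.SF.Small

/-!
# Third-order gaps
-/

namespace Pool.Agent.X29.SF

open goldenRatio

open scoped Classical in
theorem gaps_iff (P : ℕ → Prop) (hinf : (setOf P).Infinite) (l g : ℕ) :
    g ∈ gaps P l ↔ ∃ n, P n ∧ P (n + g) ∧ Nat.count (fun j => P (n + j)) g = l := by
  constructor
  · rintro ⟨k, rfl⟩
    have hmono := Nat.nth_strictMono hinf
    have hle : Nat.nth P k ≤ Nat.nth P (k + l) := hmono.monotone (by omega)
    have e : Nat.nth P k + (Nat.nth P (k + l) - Nat.nth P k) = Nat.nth P (k + l) := by omega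
    refine ⟨Nat.nth P k, Nat.nth_mem_of_infinite hinf k, ?_, ?_⟩
    · rw [e]; exact Nat.nth_mem_of_infinite hinf _
    · have h1 := Nat.count_add P (Nat.nth P k) (Nat.nth P (k + l) - Nat.nth P k)
      rw [e, Nat.count_nth_of_infinite hinf, Nat.count_nth_of_infinite hinf] at h1
      omega
  · rintro ⟨n, hn, hng, hc⟩
    refine ⟨Nat.count P n, ?_⟩
    have h1 := Nat.count_add P n g
    rw [hc] at h1
    rw [← h1, Nat.nth_count hng, Nat.nth_count hn]
    omega

open scoped Classical in
theorem four_le_count (P : ℕ → Prop) (g a b c : ℕ) (h0 : P 0) (ha : 1 ≤ a) (hab : a < b)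
    (hbc : b < c) (hc : c < g) (pa : P a) (pb : P b) (pc : P c) : 4 ≤ Nat.count P g := by
  rw [Nat.count_eq_card_filter_range]
  have hcard : ({0, a, b, c} : Finset ℕ).card = 4 := by
    rw [Finset.card_insert_of_notMem, Finset.card_insert_of_notMem,
      Finset.card_insert_of_notMem, Finset.card_singleton]
    · simp; omega
    · simp; omega
    · simp; omega
  rw [← hcard]
  apply Finset.card_le_card
  intro z hz
  simp only [Finset.mem_insert, Finset.mem_singleton] at hz
  rw [Finset.mem_filter, Finset.mem_range]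
  rcases hz with rfl | rfl | rfl | rfl
  · exact ⟨by omega, h0⟩
  · exact ⟨by omega, pa⟩
  · exact ⟨by omega, pb⟩
  · exact ⟨hc, pc⟩

theorem hit (y : ℕ → ℝ) (hy0 : ∀ j ≤ 13, 0 < y j) (hy1 : ∀ j ≤ 13, y j < 1)
    (hz : ∀ j : ℕ, j ≤ 13 → ∃ z : ℤ, y j = y 0 + (j : ℝ) * φ - z) : ∃ j ≤ 13, y j ≤ 1 / 4 := by
  have hl := phi_lb
  have hu := phi_ub
  have y0 := hy0 0 (by norm_num)
  have y1 := hy1 0 (by norm_num)
  have key' : ∀ j : ℕ, j ≤ 13 → ∀ c : ℤ, 0 < y 0 + (j : ℝ) * φ - c → y 0 + (j : ℝ) * φ - c < 1 →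
      y j = y 0 + (j : ℝ) * φ - c := by
    intro j hj c hc0 hc1
    obtain ⟨z, hz⟩ := hz j hj
    have a0 := hy0 j hj
    have a1 := hy1 j hj
    rw [hz] at a0 a1
    have b1 : (z : ℝ) < c + 1 := by linarith
    have b2 : (c : ℝ) < z + 1 := by linarith
    have b1' : z < c + 1 := by exact_mod_cast b1
    have b2' : c < z + 1 := by exact_mod_cast b2
    have : z = c := by omega
    rw [hz, this]
  rcases le_or_gt (y 0) 0.25 with h | h
  · exact ⟨0, by norm_num, by linarith⟩
  rcases le_or_gt (y 0) 0.39 with h' | h'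
  · have e := key' 3 (by norm_num) 5 (by push_cast; linarith) (by push_cast; linarith)
    push_cast at e
    exact ⟨3, by norm_num, by rw [e]; linarith⟩
  rcases le_or_gt (y 0) 0.63 with h'' | h''
  · have e := key' 1 (by norm_num) 2 (by push_cast; linarith) (by push_cast; linarith)
    push_cast at e
    exact ⟨1, by norm_num, by rw [e]; linarith⟩
  rcases le_or_gt (y 0) 0.77 with h3 | h3
  · have e := key' 4 (by norm_num) 7 (by push_cast; linarith) (by push_cast; linarith)
    push_cast at e
    exact ⟨4, by norm_num, by rw [e]; linarith⟩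
  · have e := key' 2 (by norm_num) 4 (by push_cast; linarith) (by push_cast; linarith)
    push_cast at e
    exact ⟨2, by norm_num, by rw [e]; linarith⟩

/-- The shift relation for down-integers. -/
theorem shift_down (n j : ℕ) : ∃ z : ℤ, x (n + j) 1 = x (n + 0) 1 + (j : ℝ) * φ - z := by
  refine ⟨⌊φ * ((n + j : ℕ) : ℝ)⌋ - ⌊φ * ((n + 0 : ℕ) : ℝ)⌋, ?_⟩
  unfold x
  rw [if_pos (by norm_num), if_pos (by norm_num), ← Int.self_sub_floor, ← Int.self_sub_floor]
  push_cast
  ring

/-- The shift relation for up-integers. -/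
theorem shift_up (n j : ℕ) (hj : j ≤ n) :
    ∃ z : ℤ, x (n - j) 0 = x (n - 0) 0 + (j : ℝ) * φ - z := by
  refine ⟨⌊φ * ((n - 0 : ℕ) : ℝ)⌋ - ⌊φ * ((n - j : ℕ) : ℝ)⌋, ?_⟩
  unfold x
  rw [if_neg (by norm_num), if_neg (by norm_num), ← Int.self_sub_floor, ← Int.self_sub_floor]
  push_cast [Nat.cast_sub hj, Nat.sub_zero]
  ring

theorem core_down {n : ℕ} (hn : 900 ≤ n) (hD : Down n) :
    (∃ a b c, 1 ≤ a ∧ a < b ∧ b < c ∧ c ≤ 13 ∧ Down (n + a) ∧ Down (n + b) ∧ Down (n + c)) ∧
    (Down (n + 9) → ∃ a b c, 1 ≤ a ∧ a < b ∧ b < c ∧ c ≤ 8 ∧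
      Down (n + a) ∧ Down (n + b) ∧ Down (n + c)) ∧
    (Down (n + 12) → ∃ a b c, 1 ≤ a ∧ a < b ∧ b < c ∧ c ≤ 11 ∧
      Down (n + a) ∧ Down (n + b) ∧ Down (n + c)) := by
  refine core (fun j => Down (n + j)) (fun j => x (n + j) 1) (fun j _ => x_pos (by omega) 1)
    (fun j _ => x_lt_one (by omega) 1) (fun j _ => shift_down n j) ?_ ?_ hD
  · intro i hi j hj h1 h2
    rw [down_iff (by omega)] at h1 ⊢
    exact good_stable (by omega) (by omega) (by omega) h1 h2
  · intro j hj h
    rw [down_iff (by omega)]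
    exact good_of_small (by omega) h

theorem core_up {n : ℕ} (hn : 900 ≤ n) (hD : Up n) :
    (∃ a b c, 1 ≤ a ∧ a < b ∧ b < c ∧ c ≤ 13 ∧ Up (n - a) ∧ Up (n - b) ∧ Up (n - c)) ∧
    (Up (n - 9) → ∃ a b c, 1 ≤ a ∧ a < b ∧ b < c ∧ c ≤ 8 ∧
      Up (n - a) ∧ Up (n - b) ∧ Up (n - c)) ∧
    (Up (n - 12) → ∃ a b c, 1 ≤ a ∧ a < b ∧ b < c ∧ c ≤ 11 ∧
      Up (n - a) ∧ Up (n - b) ∧ Up (n - c)) := by
  refine core (fun j => Up (n - j)) (fun j => x (n - j) 0) (fun j _ => x_pos (by omega) 0)
    (fun j _ => x_lt_one (by omega) 0) (fun j _ => shift_up n j (by omega)) ?_ ?_ hD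
  · intro i hi j hj h1 h2
    rw [up_iff (by omega)] at h1 ⊢
    exact good_stable (by omega) (by omega) (by omega) h1 h2
  · intro j hj h
    rw [up_iff (by omega)]
    exact good_of_small (by omega) h

theorem infinite_down : {n | Down n}.Infinite := by
  rw [Set.infinite_iff_exists_gt]
  intro M
  obtain ⟨j, hj, h⟩ := hit (fun j => x (M + 900 + j) 1) (fun j _ => x_pos (by omega) 1)
    (fun j _ => x_lt_one (by omega) 1) (fun j _ => shift_down (M + 900) j)
  refine ⟨M + 900 + j, ?_, by omega⟩
  simp only [Set.mem_ofPred_eq]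
  rw [down_iff (by omega)]
  exact good_of_small (by omega) h

theorem infinite_up : {n | Up n}.Infinite := by
  rw [Set.infinite_iff_exists_gt]
  intro M
  obtain ⟨j, hj, h⟩ := hit (fun j => x (M + 900 - j) 0) (fun j _ => x_pos (by omega) 0)
    (fun j _ => x_lt_one (by omega) 0) (fun j _ => shift_up (M + 900) j (by omega))
  refine ⟨M + 900 - j, ?_, by omega⟩
  simp only [Set.mem_ofPred_eq]
  rw [up_iff (by omega)]
  exact good_of_small (by omega) h

open scoped Classical in
/-- Transfer of the count to the table. -/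
theorem count_table {P : ℕ → Prop} {v : Bool}
    (hP : ∀ n, n < 915 → 2 ≤ n → (P n ↔ db n = v)) {n g : ℕ} (h2 : 2 ≤ n) (hg : n + g ≤ 915) :
    Nat.count (fun j => P (n + j)) g = Nat.count (fun j => db (n + j) = v) g := by
  rw [Nat.count_eq_card_filter_range, Nat.count_eq_card_filter_range]
  congr 1
  ext z
  simp only [Finset.mem_filter, Finset.mem_range]
  constructor
  · rintro ⟨h3, h4⟩; exact ⟨h3, (hP _ (by omega) (by omega)).1 h4⟩
  · rintro ⟨h3, h4⟩; exact ⟨h3, (hP _ (by omega) (by omega)).2 h4⟩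

open scoped Classical in
theorem gap_small {P : ℕ → Prop} {v : Bool}
    (hP : ∀ n, n < 915 → 2 ≤ n → (P n ↔ db n = v)) {n g : ℕ} (h2 : 2 ≤ n) (hn : n < 900)
    (hPn : P n) (hPg : P (n + g)) (hc : Nat.count (fun j => P (n + j)) g = 3) :
    g ∈ claimed := by
  have hv := (hP n (by omega) h2).1 hPn
  obtain ⟨w1, w2⟩ := window v n hn h2 hv
  have hg : g < 14 := by
    by_contra hlt
    push Not at hlt
    have h1 := count_table hP (n := n) (g := 14) h2 (by omega)
    have h3 : Nat.count (fun j => P (n + j)) 14 ≤ Nat.count (fun j => P (n + j)) g :=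
      Nat.count_monotone _ hlt
    omega
  refine w2 g hg ((hP _ (by omega) (by omega)).1 hPg) ?_
  rw [← count_table hP h2 (by omega)]
  exact hc

open scoped Classical in
theorem gaps_down : gaps Down 3 = {g | g ∈ claimed} := by
  ext g
  rw [gaps_iff _ infinite_down]
  simp only [Set.mem_ofPred_eq]
  constructor
  · rintro ⟨n, hn, hng, hc⟩
    have h2 : 2 ≤ n := hn.1
    rcases lt_or_ge n 900 with hlt | hge
    · exact gap_small (v := true) (fun n h1 h2 => down_small h1 h2) h2 hlt hn hng hc
    · obtain ⟨c1, c2, c3⟩ := core_down hge hn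
      have hg3 : 3 ≤ g := by
        rw [← hc]; exact Nat.count_le _
      have hg14 : g < 14 := by
        by_contra hlt
        push Not at hlt
        obtain ⟨a, b, c, h1, h2, h3, h4, pa, pb, pc⟩ := c1
        have := four_le_count (fun j => Down (n + j)) g a b c hn h1 h2 h3 (by omega) pa pb pc
        omega
      have hg9 : g ≠ 9 := by
        rintro rfl
        obtain ⟨a, b, c, h1, h2, h3, h4, pa, pb, pc⟩ := c2 hng
        have := four_le_count (fun j => Down (n + j)) 9 a b c hn h1 h2 h3 (by omega) pa pb pc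
        omega
      have hg12 : g ≠ 12 := by
        rintro rfl
        obtain ⟨a, b, c, h1, h2, h3, h4, pa, pb, pc⟩ := c3 hng
        have := four_le_count (fun j => Down (n + j)) 12 a b c hn h1 h2 h3 (by omega) pa pb pc
        omega
      unfold claimed
      interval_cases g <;> simp_all
  · intro hg
    obtain ⟨n, hn, h2, h3, h4, h5⟩ := witness_down g hg
    have hg13 : g ≤ 13 := by
      unfold claimed at hg
      simp only [List.mem_cons, List.not_mem_nil, or_false] at hg
      omega
    refine ⟨n, (down_small (by omega) h2).2 h3, (down_small (by omega) (by omega)).2 h4, ?_⟩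
    rw [count_table (v := true) (fun n h1 h2 => down_small h1 h2) h2 (by omega)]
    exact h5

open scoped Classical in
theorem gaps_up : gaps Up 3 = {g | g ∈ claimed} := by
  ext g
  rw [gaps_iff _ infinite_up]
  simp only [Set.mem_ofPred_eq]
  constructor
  · rintro ⟨n, hn, hng, hc⟩
    have h2 : 2 ≤ n := hn.1
    rcases lt_or_ge n 900 with hlt | hge
    · exact gap_small (v := false) (fun n h1 h2 => up_small h1 h2) h2 hlt hn hng hc
    · obtain ⟨c1, c2, c3⟩ := core_up (n := n + g) (by omega) hng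
      have hg3 : 3 ≤ g := by
        rw [← hc]; exact Nat.count_le _
      have conv : ∀ a, a ≤ g → Up (n + g - a) → Up (n + (g - a)) := by
        intro a ha h
        rwa [show n + (g - a) = n + g - a by omega]
      have hg14 : g < 14 := by
        by_contra hlt
        push Not at hlt
        obtain ⟨a, b, c, h1, h2, h3, h4, pa, pb, pc⟩ := c1
        have := four_le_count (fun j => Up (n + j)) g (g - c) (g - b) (g - a) hn (by omega)
          (by omega) (by omega) (by omega) (conv c (by omega) pc) (conv b (by omega) pb)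
          (conv a (by omega) pa)
        omega
      have hg9 : g ≠ 9 := by
        rintro rfl
        obtain ⟨a, b, c, h1, h2, h3, h4, pa, pb, pc⟩ := c2 (by simpa using hn)
        have := four_le_count (fun j => Up (n + j)) 9 (9 - c) (9 - b) (9 - a) hn (by omega)
          (by omega) (by omega) (by omega) (conv c (by omega) pc) (conv b (by omega) pb)
          (conv a (by omega) pa)
        omega
      have hg12 : g ≠ 12 := by
        rintro rfl
        obtain ⟨a, b, c, h1, h2, h3, h4, pa, pb, pc⟩ := c3 (by simpa using hn)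
        have := four_le_count (fun j => Up (n + j)) 12 (12 - c) (12 - b) (12 - a) hn (by omega)
          (by omega) (by omega) (by omega) (conv c (by omega) pc) (conv b (by omega) pb)
          (conv a (by omega) pa)
        omega
      unfold claimed
      interval_cases g <;> simp_all
  · intro hg
    obtain ⟨n, hn, h2, h3, h4, h5⟩ := witness_up g hg
    have hg13 : g ≤ 13 := by
      unfold claimed at hg
      simp only [List.mem_cons, List.not_mem_nil, or_false] at hg
      omega
    refine ⟨n, (up_small (by omega) h2).2 h3, (up_small (by omega) (by omega)).2 h4, ?_⟩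
    rw [count_table (v := false) (fun n h1 h2 => up_small h1 h2) h2 (by omega)]
    exact h5

end Pool.Agent.X29.SF
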