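import Pool.Agent.X29.SF.Core

/-!
# Numbers below 915
-/

namespace Pool.Agent.X29.SF

open goldenRatio

/-- The down-integers below 915 as a bit mask. -/
def BD : ℕ := 89066538082754038245193597540705998133357537453674445707281961973244189004489806510951156805485161524033306484825341188852778346632188362521830547875534933152886826097369993837838370058234949046985629890159315537159848120037948483267420640162872294052526674728636268165772964

/-- Down-integer table. -/
def db (n : ℕ) : Bool := BD.testBit n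

/-- The floor of the golden ratio times `n` for small `n`. -/
def mf (n : ℕ) : ℕ := n * 1346269 / 832040

/-- Decidable form of `A` for small `n`. -/
def kb (n k : ℕ) : Bool :=
  if k % 2 = 1 then decide (n * Nat.fib (k + 1) < mf n * Nat.fib k)
  else decide ((mf n + 1) * Nat.fib k < n * Nat.fib (k + 1))

theorem mf_check : ∀ n < 915, 1 ≤ n →
    mf n * mf n < mf n * n + n * n ∧ (mf n + 1) * n + n * n < (mf n + 1) * (mf n + 1) := by
  decide +kernel

theorem mf_floor {n : ℕ} (hn : n < 915) (h1 : 1 ≤ n) : ⌊φ * (n : ℝ)⌋ = (mf n : ℤ) := by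
  obtain ⟨ha, hb⟩ := mf_check n hn h1
  have ha' : (mf n : ℝ) * mf n < mf n * n + n * n := by exact_mod_cast ha
  have hb' : ((mf n : ℝ) + 1) * n + n * n < (mf n + 1) * (mf n + 1) := by exact_mod_cast hb
  have hsq := Real.goldenRatio_sq
  have hφ := phi_lb
  have hn0 : (0 : ℝ) < n := by exact_mod_cast h1
  have hm0 : (0 : ℝ) ≤ mf n := Nat.cast_nonneg _
  rw [Int.floor_eq_iff]
  push_cast
  have hprod : ∀ m : ℝ, (m - φ * n) * (m + (φ - 1) * n) = m * m - m * n - n * n := by
    intro m
    have : (m - φ * n) * (m + (φ - 1) * n) = m * m - m * n - (φ ^ 2 - φ) * (n * n) := by ring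
    rw [this, hsq]; ring
  constructor
  · by_contra hcon
    push Not at hcon
    have h := hprod (mf n)
    have h2 : 0 < (mf n : ℝ) + (φ - 1) * n := by nlinarith
    nlinarith [mul_pos (sub_pos.2 hcon) h2]
  · by_contra hcon
    push Not at hcon
    have h := hprod (mf n + 1)
    have h2 : 0 < (mf n : ℝ) + 1 + (φ - 1) * n := by nlinarith
    nlinarith [mul_nonneg (sub_nonneg.2 hcon) h2.le]

theorem kb_iff {n : ℕ} (hn : n < 915) (h1 : 1 ≤ n) (k : ℕ) : A n k ↔ kb n k = true := by
  rw [A_iff]
  unfold kb mm Q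
  rw [mf_floor hn h1]
  rcases Nat.mod_two_eq_zero_or_one k with hk | hk
  · rw [if_neg (by omega), if_neg (by omega), Even.neg_one_pow (Nat.even_iff.2 hk), one_mul,
      decide_eq_true_eq, ← @Nat.cast_lt ℤ]
    push_cast
    constructor <;> intro h <;> linarith
  · rw [if_pos hk, if_pos hk, Odd.neg_one_pow (Nat.odd_iff.2 hk),
      decide_eq_true_eq, ← @Nat.cast_lt ℤ]
    push_cast
    constructor <;> intro h <;> linarith

theorem db_check : ∀ n < 915, 2 ≤ n →
    (db n = true → ∃ i < 7, kb n (2 * i + 1) = true ∧ kb n (2 * i + 2) = false) ∧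
    (db n = false → ∃ i < 7, kb n (2 * i + 2) = true ∧ kb n (2 * i + 3) = false) := by
  decide +kernel

theorem down_of_db {n : ℕ} (hn : n < 915) (h2 : 2 ≤ n) (h : db n = true) : Down n := by
  obtain ⟨i, -, h3, h4⟩ := (db_check n hn h2).1 h
  rw [down_iff h2]
  refine ⟨2 * i + 1, by omega, by omega, (kb_iff hn (by omega) _).2 h3, ?_⟩
  rw [kb_iff hn (by omega), show 2 * i + 1 + 1 = 2 * i + 2 from rfl, h4]
  simp

theorem up_of_db {n : ℕ} (hn : n < 915) (h2 : 2 ≤ n) (h : db n = false) : Up n := by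
  obtain ⟨i, -, h3, h4⟩ := (db_check n hn h2).2 h
  rw [up_iff h2]
  refine ⟨2 * i + 2, by omega, by omega, (kb_iff hn (by omega) _).2 h3, ?_⟩
  rw [kb_iff hn (by omega), show 2 * i + 2 + 1 = 2 * i + 3 from rfl, h4]
  simp

theorem down_small {n : ℕ} (hn : n < 915) (h2 : 2 ≤ n) : Down n ↔ db n = true := by
  refine ⟨fun h => ?_, down_of_db hn h2⟩
  by_contra hne
  exact (up_iff_not_down h2).1 (up_of_db hn h2 (by simpa using hne)) h

theorem up_small {n : ℕ} (hn : n < 915) (h2 : 2 ≤ n) : Up n ↔ db n = false := by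
  refine ⟨fun h => ?_, up_of_db hn h2⟩
  by_contra hne
  exact (up_iff_not_down h2).1 h (down_of_db hn h2 (by simpa using hne))

/-- The claimed set. -/
def claimed : List ℕ := [3, 4, 5, 6, 7, 8, 10, 11, 13]

/-- Window check at one gap. -/
def win1 (v : Bool) (n g : ℕ) : Bool :=
  !(db (n + g) == v) || !(Nat.count (fun j => db (n + j) = v) g == 3) || decide (g ∈ claimed)

/-- Window check. -/
def win (v : Bool) (n : ℕ) : Bool :=
  decide (4 ≤ Nat.count (fun j => db (n + j) = v) 14) && (List.range 14).all (win1 v n)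

theorem win_check : ∀ n < 900, 2 ≤ n → win (db n) n = true := by
  decide +kernel

theorem window (v : Bool) (n : ℕ) (hn : n < 900) (h2 : 2 ≤ n) (hv : db n = v) :
    4 ≤ Nat.count (fun j => db (n + j) = v) 14 ∧
    ∀ g < 14, db (n + g) = v → Nat.count (fun j => db (n + j) = v) g = 3 → g ∈ claimed := by
  have h := win_check n hn h2
  rw [hv] at h
  unfold win at h
  rw [Bool.and_eq_true, decide_eq_true_eq, List.all_eq_true] at h
  refine ⟨h.1, fun g hg h3 h4 => ?_⟩
  have h5 := h.2 g (List.mem_range.2 hg)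
  unfold win1 at h5
  simpa [h3, h4] using h5

theorem witness_down : ∀ g ∈ claimed, ∃ n < 300, 2 ≤ n ∧ db n = true ∧ db (n + g) = true ∧
    Nat.count (fun j => db (n + j) = true) g = 3 := by
  decide +kernel

theorem witness_up : ∀ g ∈ claimed, ∃ n < 300, 2 ≤ n ∧ db n = false ∧ db (n + g) = false ∧
    Nat.count (fun j => db (n + j) = false) g = 3 := by
  decide +kernel

end Pool.Agent.X29.SF
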